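import Mathlib
import Pool.Agent.R279.OS.Defs
import Pool.Agent.R279.OS.Build

set_option autoImplicit false

/-!
# MP_8e06fd_an: non-complemented subspaces of `C[0,1]` with prescribed oscillating spectrum
-/

namespace Pool.Agent.Results.MP_8e06fd_an.Spectrum

/-- For every nonempty `F_σ` set `M ⊆ [0,1]` (a union of a sequence `F` of closed sets) there is a closed
linear subspace `X` of `C[0,1]` with oscillating spectrum `M` which is not complemented. -/
theorem result (M : Set unitInterval) (hne : M.Nonempty) (F : ℕ → Set unitInterval)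
    (hF : ∀ n, IsClosed (F n)) (hM : M = ⋃ n, F n) :
    ∃ X : Submodule ℝ C(unitInterval, ℝ), IsClosed (X : Set C(unitInterval, ℝ)) ∧
      Pool.Agent.R279.OS.Omega X = M ∧ ¬ Pool.Agent.R279.OS.IsCompl X :=
  Pool.Agent.R279.OS.exists_sub M hne F hF hM

end Pool.Agent.Results.MP_8e06fd_an.Spectrum
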